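import Pool.Agent.Helper21.FX.B

/-!
# Bounded orbits of the 5x+1 map

The first `l` parities of an orbit determine its starting point modulo `2 ^ l`; an orbit which stays
in `[-X, X]` has few odd steps.  Counting the parity words gives a power saving for the number of
the integers whose whole orbit stays in `[-X, X]`.
-/

set_option autoImplicit false

namespace Pool.Agent.Helper55.FX

open Finset Pool.Agent.Helper21.FX

theorem T5_even {n : ℤ} (h : n % 2 = 0) : 2 * T5 n = n := by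
  unfold T5; rw [if_pos h]; omega

theorem T5_odd {n : ℤ} (h : n % 2 ≠ 0) : 2 * T5 n = 5 * n + 1 := by
  unfold T5; rw [if_neg h]; omega

theorem det_aux (l : ℕ) : ∀ m n : ℤ, (∀ i < l, (T5^[i] m % 2 ≠ 0 ↔ T5^[i] n % 2 ≠ 0)) →
    ∃ j : ℕ, 2 ^ l * (T5^[l] m - T5^[l] n) = 5 ^ j * (m - n) := by
  induction l with
  | zero => intro m n _; exact ⟨0, by simp⟩
  | succ l ih =>
    intro m n h
    obtain ⟨j, hj⟩ := ih (T5 m) (T5 n) (fun i hi => by
      have := h (i + 1) (by omega)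
      simpa only [Function.iterate_succ_apply] using this)
    have h0 : m % 2 ≠ 0 ↔ n % 2 ≠ 0 := h 0 (by omega)
    simp only [Function.iterate_succ_apply]
    have h2 : (2:ℤ) ^ (l + 1) * (T5^[l] (T5 m) - T5^[l] (T5 n)) = 2 * (5 ^ j * (T5 m - T5 n)) := by
      rw [← hj]; ring
    by_cases hm : m % 2 = 0
    · have e1 := T5_even hm
      have e2 := T5_even (n := n) (by by_contra hn; exact (h0.2 hn) hm)
      refine ⟨j, ?_⟩
      rw [h2]
      linear_combination (5:ℤ) ^ j * e1 - (5:ℤ) ^ j * e2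
    · have e1 := T5_odd hm
      have e2 := T5_odd (n := n) (h0.1 hm)
      refine ⟨j + 1, ?_⟩
      rw [h2]
      linear_combination (5:ℤ) ^ j * e1 - (5:ℤ) ^ j * e2

theorem det_dvd {l : ℕ} {m n : ℤ} (h : ∀ i < l, (T5^[i] m % 2 ≠ 0 ↔ T5^[i] n % 2 ≠ 0)) :
    (2:ℤ) ^ l ∣ m - n := by
  obtain ⟨j, hj⟩ := det_aux l m n h
  have hc : IsCoprime ((2:ℤ) ^ l) (5 ^ j) := IsCoprime.pow ⟨-2, 1, by norm_num⟩
  exact hc.dvd_of_dvd_mul_left ⟨_, hj.symm⟩

theorem det_eq {l : ℕ} {m n : ℤ} (h : ∀ i < l, (T5^[i] m % 2 ≠ 0 ↔ T5^[i] n % 2 ≠ 0))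
    (he : T5^[l] m = T5^[l] n) : m = n := by
  obtain ⟨j, hj⟩ := det_aux l m n h
  rw [he, sub_self, mul_zero] at hj
  have : (5:ℤ) ^ j ≠ 0 := by positivity
  have := (mul_eq_zero.1 hj.symm).resolve_left this
  omega

/-- the positions of the odd elements among the first `l` -/
def O (l : ℕ) (n : ℤ) : Finset ℕ := (range l).filter fun i => T5^[i] n % 2 ≠ 0

theorem O_eq {l : ℕ} {m n : ℤ} (h : O l m = O l n) :
    ∀ i < l, (T5^[i] m % 2 ≠ 0 ↔ T5^[i] n % 2 ≠ 0) := by
  intro i hi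
  have : i ∈ O l m ↔ i ∈ O l n := by rw [h]
  simpa [O, hi] using this

theorem grow {q : ℝ} {M : ℤ} (hq : 0 < q) (hq5 : q < 5) (hM : 1 ≤ (5 - q) * M) (n : ℤ) :
    ∀ l : ℕ, (∀ i < l, M ≤ |T5^[i] n|) →
      q ^ (O l n).card * |(n:ℝ)| ≤ 2 ^ l * |((T5^[l] n : ℤ) : ℝ)| := by
  intro l
  induction l with
  | zero => intro _; simp [O]
  | succ l ih =>
    intro h
    have h1 := ih (fun i hi => h i (by omega))
    have h2 := h l (by omega)
    rw [Function.iterate_succ_apply']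
    set z := T5^[l] n with hz
    have h2' : (M:ℝ) ≤ |(z:ℝ)| := by exact_mod_cast h2
    by_cases hp : z % 2 = 0
    · have e : O (l + 1) n = O l n := by
        unfold O
        rw [range_add_one, filter_insert, if_neg (by rw [← hz]; simpa using hp)]
      have e2 : (2:ℝ) * ((T5 z : ℤ):ℝ) = z := by exact_mod_cast T5_even hp
      rw [e, pow_succ, mul_assoc, ← abs_two (α := ℝ), ← abs_mul, e2, abs_two]
      exact h1
    · have e : (O (l + 1) n).card = (O l n).card + 1 := by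
        unfold O
        rw [range_add_one, filter_insert, if_pos (by rw [← hz]; exact hp), card_insert_of_notMem]
        simp
      have e2 : (2:ℝ) * ((T5 z : ℤ):ℝ) = 5 * z + 1 := by exact_mod_cast T5_odd hp
      have e3 : q * |(z:ℝ)| ≤ |2 * ((T5 z : ℤ):ℝ)| := by
        rw [e2]
        have : |5 * (z:ℝ) + 1| ≥ 5 * |(z:ℝ)| - 1 := by
          have := abs_sub_abs_le_abs_sub (5 * (z:ℝ)) (-1)
          rw [abs_neg, abs_one, sub_neg_eq_add, abs_mul] at this
          simpa using this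
        nlinarith [mul_le_mul_of_nonneg_left h2' (sub_pos.2 hq5).le]
      have hp2 : (0:ℝ) < 2 ^ l := by positivity
      calc q ^ (O (l + 1) n).card * |(n:ℝ)| = q * (q ^ (O l n).card * |(n:ℝ)|) := by
            rw [e, pow_succ]; ring
        _ ≤ q * (2 ^ l * |(z:ℝ)|) := by gcongr
        _ = 2 ^ l * (q * |(z:ℝ)|) := by ring
        _ ≤ 2 ^ l * |2 * ((T5 z : ℤ):ℝ)| := by gcongr
        _ = 2 ^ (l + 1) * |((T5 z : ℤ):ℝ)| := by
            rw [abs_mul, abs_two, pow_succ]; ring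

theorem stop (M : ℤ) (n : ℤ) (l : ℕ) :
    ∃ t ≤ l, (∀ i < t, M ≤ |T5^[i] n|) ∧ (t = l ∨ |T5^[t] n| < M) := by
  classical
  have hex : ∃ t, t = l ∨ |T5^[t] n| < M := ⟨l, Or.inl rfl⟩
  refine ⟨Nat.find hex, Nat.find_min' hex (Or.inl rfl), fun i hi => ?_, Nat.find_spec hex⟩
  have := Nat.find_min hex hi
  push Not at this
  exact this.2

/-- the code of an integer -/
theorem code (M : ℤ) (n : ℤ) : ∃ t : ℕ, ∃ z : ℤ, t ≤ Nat.log 2 n.natAbs + 2 ∧
    (∀ i < t, M ≤ |T5^[i] n|) ∧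
    ((z = M ∧ t = Nat.log 2 n.natAbs + 2) ∨ (|z| < M ∧ z = T5^[t] n)) := by
  obtain ⟨t, ht, h1, h2⟩ := stop M n (Nat.log 2 n.natAbs + 2)
  by_cases h : |T5^[t] n| < M
  · exact ⟨t, T5^[t] n, ht, h1, Or.inr ⟨h, rfl⟩⟩
  · exact ⟨t, M, ht, h1, Or.inl ⟨rfl, h2.resolve_right h⟩⟩

theorem code_inj {M : ℤ} {m n : ℤ} {t : ℕ} {z : ℤ} (hm0 : m ≠ 0) (hn0 : n ≠ 0)
    (hO : O t m = O t n)
    (hm : (z = M ∧ t = Nat.log 2 m.natAbs + 2) ∨ (|z| < M ∧ z = T5^[t] m))
    (hn : (z = M ∧ t = Nat.log 2 n.natAbs + 2) ∨ (|z| < M ∧ z = T5^[t] n)) : m = n := by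
  have hO' := O_eq hO
  rcases hm with ⟨hz, hm⟩ | ⟨hz, hm⟩
  · rcases hn with ⟨_, hn⟩ | ⟨hz', _⟩
    · have hd := det_dvd hO'
      have b : ∀ k : ℤ, k ≠ 0 → t = Nat.log 2 k.natAbs + 2 → 2 * |k| < 2 ^ t := by
        intro k hk ht
        have := Nat.lt_pow_succ_log_self (b := 2) (by norm_num) k.natAbs
        rw [ht, Int.abs_eq_natAbs]
        have h3 : (k.natAbs : ℤ) < 2 ^ (Nat.log 2 k.natAbs + 1) := by exact_mod_cast this
        rw [pow_succ]; omega
      have bm := b m hm0 hm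
      have bn := b n hn0 hn
      have : |m - n| < 2 ^ t := by
        have := abs_sub m n
        linarith
      have := Int.eq_zero_of_abs_lt_dvd hd this
      omega
    · rw [hz] at hz'
      exact absurd hz' (not_lt.2 (le_abs_self M))
  · rcases hn with ⟨hz', _⟩ | ⟨_, hn⟩
    · rw [hz'] at hz
      exact absurd hz (not_lt.2 (le_abs_self M))
    · exact det_eq hO' (hm.symm.trans hn)

theorem sum_pow_O (a : ℝ) (t : ℕ) : ∑ o ∈ (range t).powerset, a ^ o.card = (1 + a) ^ t := by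
  have := Finset.sum_pow_mul_eq_add_pow a 1 (range t)
  simpa [add_comm] using this

/-- a finite forward invariant set of integers of absolute value in `[1, X]` -/
theorem count_aux {q : ℝ} {M : ℕ} (hq : 0 < q) (hq5 : q < 5) (hM : 1 ≤ (5 - q) * M) {s : ℝ}
    (hs : 0 ≤ s) {X : ℕ} (hX : 1 ≤ X) (S : Finset ℤ) (h0 : (0:ℤ) ∉ S)
    (hS : ∀ n ∈ S, T5 n ∈ S ∧ |n| ≤ X) :
    (S.card : ℝ) ≤ (2 * M + 1) * (4 * X) ^ s *
      ∑ t ∈ range (Nat.log 2 X + 3), (1 + q ^ (-s)) ^ t := by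
  classical
  choose tau z h1 h2 h3 using code (M : ℤ)
  have hit : ∀ (k : ℕ) (n : ℤ), n ∈ S → T5^[k] n ∈ S := by
    intro k
    induction k with
    | zero => intro n hn; exact hn
    | succ k ih => intro n hn; rw [Function.iterate_succ_apply]; exact ih _ (hS n hn).1
  have hlog : ∀ n ∈ S, Nat.log 2 n.natAbs ≤ Nat.log 2 X := by
    intro n hn
    apply Nat.log_mono_right
    have := (hS n hn).2
    rw [Int.abs_eq_natAbs] at this
    omega
  have hw : ∀ n ∈ S, (1:ℝ) ≤ (4 * X) ^ s * (q ^ (-s)) ^ (O (tau n) n).card := by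
    intro n hn
    have g := grow hq hq5 (M := (M:ℤ)) (by exact_mod_cast hM) n (tau n) (h2 n)
    have hn0 : n ≠ 0 := fun h => h0 (h ▸ hn)
    have hb : |((T5^[tau n] n : ℤ) : ℝ)| ≤ X := by
      exact_mod_cast (hS _ (hit (tau n) n hn)).2
    have hpos : (0:ℝ) < |(n:ℝ)| := abs_pos.2 (by exact_mod_cast hn0)
    have h2t : (2:ℝ) ^ tau n ≤ 4 * |(n:ℝ)| := by
      have e1 : (2:ℝ) ^ tau n ≤ 2 ^ (Nat.log 2 n.natAbs + 2) :=
        pow_le_pow_right₀ (by norm_num) (h1 n)
      have e2 : 2 ^ Nat.log 2 n.natAbs ≤ n.natAbs := Nat.pow_log_le_self 2 (by omega)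
      have e3 : ((2:ℝ) ^ Nat.log 2 n.natAbs) ≤ (n.natAbs : ℝ) := by exact_mod_cast e2
      have e4 : (n.natAbs : ℝ) = |(n:ℝ)| := by
        rw [Nat.cast_natAbs, Int.cast_abs]
      rw [pow_add] at e1
      rw [e4] at e3
      linarith
    have hq4 : q ^ (O (tau n) n).card ≤ 4 * X := by
      have : q ^ (O (tau n) n).card * |(n:ℝ)| ≤ 4 * X * |(n:ℝ)| := by
        calc q ^ (O (tau n) n).card * |(n:ℝ)| ≤ 2 ^ tau n * |((T5^[tau n] n : ℤ) : ℝ)| := g
          _ ≤ 4 * |(n:ℝ)| * X := by gcongr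
          _ = 4 * X * |(n:ℝ)| := by ring
      exact le_of_mul_le_mul_right this hpos
    have e5 : (q ^ (-s)) ^ (O (tau n) n).card * (q ^ (O (tau n) n).card) ^ s = 1 := by
      rw [← Real.rpow_natCast (q ^ (-s)), ← Real.rpow_natCast q, ← Real.rpow_mul hq.le,
        ← Real.rpow_mul hq.le, ← Real.rpow_add hq]
      ring_nf
      exact Real.rpow_zero q
    rw [← e5, mul_comm]
    have : (0:ℝ) ≤ (q ^ (-s)) ^ (O (tau n) n).card := by positivity
    gcongr
  let F : ℤ → (Σ _ : ℕ, Finset ℕ) × ℤ := fun n => (⟨tau n, O (tau n) n⟩, z n)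
  have hF : Set.InjOn F (S : Set ℤ) := by
    intro m hm n hn hmn
    have e1 : tau m = tau n := congrArg (fun p => p.1.1) hmn
    have e2 : O (tau m) m = O (tau n) n := congrArg (fun p => p.1.2) hmn
    have e3 : z m = z n := congrArg (fun p => p.2) hmn
    have k1 := h3 m
    have k2 := h3 n
    rw [e1] at e2 k1
    rw [e3] at k1
    exact code_inj (fun h => h0 (h ▸ hm)) (fun h => h0 (h ▸ hn)) e2 k1 k2
  let G : Finset ((Σ _ : ℕ, Finset ℕ) × ℤ) :=
    ((range (Nat.log 2 X + 3)).sigma fun t => (range t).powerset) ×ˢ Icc (-(M:ℤ)) M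
  have hFG : ∀ n ∈ S, F n ∈ G := by
    intro n hn
    simp only [G, F, mem_product, mem_sigma, mem_range, mem_powerset, mem_Icc]
    refine ⟨⟨?_, filter_subset _ _⟩, ?_⟩
    · have := h1 n
      have := hlog n hn
      omega
    · rcases h3 n with ⟨h, _⟩ | ⟨h, _⟩
      · rw [h]; omega
      · rw [abs_lt] at h; omega
  have hX0 : (0:ℝ) ≤ 4 * X := by positivity
  calc (S.card : ℝ) = ∑ n ∈ S, (1:ℝ) := by simp
    _ ≤ ∑ n ∈ S, (4 * X : ℝ) ^ s * (q ^ (-s)) ^ (O (tau n) n).card := sum_le_sum hw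
    _ = ∑ p ∈ S.image F, (4 * X : ℝ) ^ s * (q ^ (-s)) ^ p.1.2.card := by
        rw [sum_image hF]
    _ ≤ ∑ p ∈ G, (4 * X : ℝ) ^ s * (q ^ (-s)) ^ p.1.2.card := by
        apply sum_le_sum_of_subset_of_nonneg
        · intro p hp
          obtain ⟨n, hn, rfl⟩ := mem_image.1 hp
          exact hFG n hn
        · intro p _ _; positivity
    _ = (2 * M + 1) * (4 * X) ^ s * ∑ t ∈ range (Nat.log 2 X + 3), (1 + q ^ (-s)) ^ t := by
        rw [sum_product]
        simp only [sum_const, Int.card_Icc, nsmul_eq_mul]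
        rw [← mul_sum, sum_sigma]
        simp only [← mul_sum, sum_pow_O]
        have : (((M:ℤ) + 1 - -(M:ℤ)).toNat : ℝ) = 2 * M + 1 := by
          have : ((M:ℤ) + 1 - -(M:ℤ)).toNat = 2 * M + 1 := by omega
          rw [this]; push_cast; ring
        rw [this]; ring

theorem count_pos {q : ℝ} {M : ℕ} (hq : 0 < q) (hq5 : q < 5) (hM : 1 ≤ (5 - q) * M) {s c : ℝ}
    (hs : 0 ≤ s) (hc : 1 + q ^ (-s) ≤ 2 ^ c) {X : ℕ} (hX : 1 ≤ X) (S : Finset ℤ)
    (h0 : (0:ℤ) ∉ S) (hS : ∀ n ∈ S, T5 n ∈ S ∧ |n| ≤ X) :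
    (S.card : ℝ) ≤ (2 * M + 1) * 4 ^ s * ((1 + q ^ (-s)) ^ 3 / q ^ (-s)) * (X:ℝ) ^ (s + c) := by
  have h := count_aux hq hq5 hM hs hX S h0 hS
  set a : ℝ := q ^ (-s) with ha
  have ha0 : 0 < a := Real.rpow_pos_of_pos hq _
  have hX0 : (0:ℝ) < X := by exact_mod_cast hX
  have hc0 : 0 ≤ c := by
    by_contra hneg
    have : (2:ℝ) ^ c < 1 := Real.rpow_lt_one_of_one_lt_of_neg (by norm_num) (not_le.1 hneg)
    linarith
  have hsum : ∑ t ∈ range (Nat.log 2 X + 3), (1 + a) ^ t ≤ (1 + a) ^ 3 / a * (X:ℝ) ^ c := by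
    rw [geom_sum_eq (by linarith)]
    have e1 : (1 + a) ^ Nat.log 2 X ≤ (X:ℝ) ^ c := by
      calc (1 + a) ^ Nat.log 2 X ≤ ((2:ℝ) ^ c) ^ Nat.log 2 X := by gcongr
        _ = ((2:ℝ) ^ Nat.log 2 X) ^ c := by
            rw [← Real.rpow_natCast, ← Real.rpow_mul (by norm_num), mul_comm,
              Real.rpow_mul (by norm_num), Real.rpow_natCast]
        _ ≤ (X:ℝ) ^ c := by
            apply Real.rpow_le_rpow (by positivity) _ hc0
            exact_mod_cast Nat.pow_log_le_self 2 (by omega)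
    have e2 : (1 + a) ^ (Nat.log 2 X + 3) - 1 ≤ (1 + a) ^ 3 * (X:ℝ) ^ c := by
      rw [pow_add]
      have : (1 + a) ^ Nat.log 2 X * (1 + a) ^ 3 ≤ (X:ℝ) ^ c * (1 + a) ^ 3 := by gcongr
      linarith
    have e3 : 1 + a - 1 = a := by ring
    rw [e3, div_mul_eq_mul_div]
    gcongr
  calc (S.card : ℝ) ≤ (2 * M + 1) * (4 * X) ^ s * ∑ t ∈ range (Nat.log 2 X + 3), (1 + a) ^ t := h
    _ ≤ (2 * M + 1) * (4 * X) ^ s * ((1 + a) ^ 3 / a * (X:ℝ) ^ c) := by gcongr
    _ = _ := by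
        rw [Real.mul_rpow (by norm_num) hX0.le, Real.rpow_add hX0]; ring

/-- the exponent: the binary entropy (in bits) of `log 2 / log 5` -/
noncomputable def hh : ℝ := Real.binEntropy (Real.log 2 / Real.log 5) / Real.log 2

theorem th_pos : 0 < Real.log 2 / Real.log 5 := by
  have := Real.log_pos (by norm_num : (1:ℝ) < 2)
  have := Real.log_pos (by norm_num : (1:ℝ) < 5)
  positivity

theorem th_lt : Real.log 2 / Real.log 5 < 1 / 2 := by
  have h2 := Real.log_pos (by norm_num : (1:ℝ) < 2)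
  have h5 := Real.log_pos (by norm_num : (1:ℝ) < 5)
  rw [div_lt_div_iff₀ h5 (by norm_num)]
  have : Real.log 4 < Real.log 5 := Real.log_lt_log (by norm_num) (by norm_num)
  have h4 : Real.log 4 = 2 * Real.log 2 := by
    rw [show (4:ℝ) = 2 ^ 2 by norm_num, Real.log_pow]; norm_num
  linarith

/-- the optimal weight -/
theorem opt : ∃ s : ℝ, 0 ≤ s ∧ s + Real.log (1 + 5 ^ (-s)) / Real.log 2 = hh := by
  have h2 := Real.log_pos (by norm_num : (1:ℝ) < 2)
  have h5 := Real.log_pos (by norm_num : (1:ℝ) < 5)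
  set th := Real.log 2 / Real.log 5 with hth
  have t0 : 0 < th := th_pos
  have t1 : th < 1 / 2 := th_lt
  have t2 : 0 < 1 - th := by linarith
  refine ⟨(Real.log (1 - th) - Real.log th) / Real.log 5, ?_, ?_⟩
  · apply div_nonneg _ h5.le
    have := Real.log_le_log t0 (by linarith : th ≤ 1 - th)
    linarith
  · have e1 : (5:ℝ) ^ (-((Real.log (1 - th) - Real.log th) / Real.log 5)) = th / (1 - th) := by
      rw [Real.rpow_def_of_pos (by norm_num)]
      have : Real.log 5 * -((Real.log (1 - th) - Real.log th) / Real.log 5) =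
          Real.log (th / (1 - th)) := by
        rw [Real.log_div t0.ne' t2.ne']
        field_simp
        ring
      rw [this, Real.exp_log (by positivity)]
    have e2 : 1 + th / (1 - th) = (1 - th)⁻¹ := by
      field_simp
      ring
    rw [e1, e2, Real.log_inv]
    unfold hh
    rw [← hth, Real.binEntropy_eq_negMulLog_add_negMulLog_one_sub, Real.negMulLog, Real.negMulLog]
    have e3 : Real.log 2 = th * Real.log 5 := by rw [hth]; field_simp
    rw [e3]
    field_simp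
    ring

theorem gibbs {t p : ℝ} (t0 : 0 < t) (t1 : t < 1) (p0 : 0 < p) (p1 : p < 1) :
    Real.binEntropy t ≤ -(t * Real.log p) - (1 - t) * Real.log (1 - p) := by
  rw [Real.binEntropy_eq_negMulLog_add_negMulLog_one_sub, Real.negMulLog, Real.negMulLog]
  have a1 : 0 < 1 - t := by linarith
  have b1 : 0 < 1 - p := by linarith
  have h1 := Real.log_le_sub_one_of_pos (div_pos p0 t0)
  have h2 := Real.log_le_sub_one_of_pos (div_pos b1 a1)
  rw [Real.log_div p0.ne' t0.ne'] at h1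
  rw [Real.log_div b1.ne' a1.ne'] at h2
  have e1 : t * (p / t - 1) = p - t := by field_simp
  have e2 : (1 - t) * ((1 - p) / (1 - t) - 1) = t - p := by field_simp; ring
  have g1 := mul_le_mul_of_nonneg_left h1 t0.le
  have g2 := mul_le_mul_of_nonneg_left h2 a1.le
  rw [e1] at g1
  rw [e2] at g2
  nlinarith

theorem hh_lt : hh < 0.9862 := by
  have h2 := Real.log_pos (by norm_num : (1:ℝ) < 2)
  have h5 := Real.log_pos (by norm_num : (1:ℝ) < 5)
  have t1 := th_lt
  have g := gibbs (t := Real.log 2 / Real.log 5) (p := 0.7648 / 1.7648) th_pos (by linarith)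
    (by norm_num) (by norm_num)
  have e1 : (1:ℝ) - 0.7648 / 1.7648 = 1 / 1.7648 := by norm_num
  rw [e1, Real.log_div (by norm_num) (by norm_num), Real.log_div (by norm_num) (by norm_num),
    Real.log_one] at g
  have k1 : -Real.log 0.7648 ≤ Real.log 5 / 6 := by
    have : Real.log 1 ≤ Real.log (5 * 0.7648 ^ 6) := Real.log_le_log (by norm_num) (by norm_num)
    rw [Real.log_one, Real.log_mul (by norm_num) (by norm_num), Real.log_pow] at this
    push_cast at this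
    linarith
  have k2 : Real.log 1.7648 ≤ 168 / 205 * Real.log 2 := by
    have : Real.log (1.7648 ^ 205) ≤ Real.log (2 ^ 168) :=
      Real.log_le_log (by norm_num) (by norm_num)
    rw [Real.log_pow, Real.log_pow] at this
    push_cast at this
    linarith
  have k3 : Real.log 2 / Real.log 5 * (-Real.log 0.7648) ≤ Real.log 2 / 6 := by
    calc Real.log 2 / Real.log 5 * (-Real.log 0.7648)
        ≤ Real.log 2 / Real.log 5 * (Real.log 5 / 6) := by
          have := th_pos; gcongr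
      _ = Real.log 2 / 6 := by field_simp
  unfold hh
  rw [div_lt_iff₀ h2]
  nlinarith

end Pool.Agent.Helper55.FX
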