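import Pool.Agent.Helper55.FX.Count

/-!
# Bounded orbits of the 5x+1 map: final form
-/

set_option autoImplicit false

namespace Pool.Agent.Helper55.FX

open Finset Pool.Agent.Helper21.FX

theorem T5_eq_zero {n : ℤ} (h : T5 n = 0) : n = 0 := by
  unfold T5 at h
  split_ifs at h <;> omega

theorem exists_q {h s : ℝ} (hs : s + Real.log (1 + 5 ^ (-s)) / Real.log 2 < h) :
    ∃ q : ℝ, 0 < q ∧ q < 5 ∧ 1 + q ^ (-s) ≤ 2 ^ (h - s) := by
  have h2 := Real.log_pos (by norm_num : (1:ℝ) < 2)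
  have hp : (0:ℝ) < 1 + 5 ^ (-s) := by positivity
  have h1 : (1:ℝ) + 5 ^ (-s) < 2 ^ (h - s) := by
    have : Real.log (1 + 5 ^ (-s)) < (h - s) * Real.log 2 := by
      rw [← div_lt_iff₀ h2]; linarith
    calc (1:ℝ) + 5 ^ (-s) = Real.exp (Real.log (1 + 5 ^ (-s))) := (Real.exp_log hp).symm
      _ < Real.exp ((h - s) * Real.log 2) := Real.exp_lt_exp.2 this
      _ = 2 ^ (h - s) := by rw [Real.rpow_def_of_pos (by norm_num), mul_comm]
  have hc : ContinuousAt (fun q : ℝ => 1 + q ^ (-s)) 5 :=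
    continuousAt_const.add (Real.continuousAt_rpow_const _ _ (Or.inl (by norm_num)))
  have h3 : ∀ᶠ q in nhds (5:ℝ), 1 + q ^ (-s) < 2 ^ (h - s) := hc.eventually_lt_const h1
  have h4 : ∀ᶠ q in nhdsWithin (5:ℝ) (Set.Iio 5), 1 + q ^ (-s) < 2 ^ (h - s) :=
    h3.filter_mono nhdsWithin_le_nhds
  have h5 : ∀ᶠ q in nhdsWithin (5:ℝ) (Set.Iio 5), q ∈ Set.Ioo (0:ℝ) 5 :=
    Ioo_mem_nhdsLT (by norm_num)
  obtain ⟨q, hq1, hq2⟩ := (h4.and h5).exists
  exact ⟨q, hq2.1, hq2.2, hq1.le⟩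

theorem main_nat {h : ℝ} (h1 : hh < h) : ∃ C : ℝ, 0 < C ∧ ∀ X : ℕ, 1 ≤ X → ∀ S : Finset ℤ,
    (∀ n ∈ S, T5 n ∈ S ∧ |n| ≤ X) → (S.card : ℝ) ≤ C * (X:ℝ) ^ h := by
  classical
  obtain ⟨s, hs0, hs⟩ := opt
  obtain ⟨q, hq0, hq5, hq⟩ := exists_q (hs.trans_lt h1)
  obtain ⟨M, hM⟩ := exists_nat_ge (1 / (5 - q))
  have hM' : 1 ≤ (5 - q) * M := by
    rw [div_le_iff₀ (by linarith)] at hM; linarith
  have hlog : 0 ≤ Real.log (1 + 5 ^ (-s)) / Real.log 2 := by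
    apply div_nonneg
    · apply Real.log_nonneg
      have : (0:ℝ) < 5 ^ (-s) := by positivity
      linarith
    · exact (Real.log_pos (by norm_num)).le
  have hh0 : 0 ≤ h := by linarith
  set C0 : ℝ := (2 * M + 1) * 4 ^ s * ((1 + q ^ (-s)) ^ 3 / q ^ (-s)) with hC0
  have hC0' : 0 ≤ C0 := by positivity
  refine ⟨C0 + 1, by positivity, fun X hX S hS => ?_⟩
  have key := count_pos hq0 hq5 hM' hs0 hq hX (S.erase 0) (by simp) (fun n hn => by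
    rw [mem_erase] at hn
    obtain ⟨a, b⟩ := hS n hn.2
    refine ⟨mem_erase.2 ⟨fun h0 => hn.1 (T5_eq_zero h0), a⟩, b⟩)
  rw [add_sub_cancel] at key
  have e1 : (S.card : ℝ) ≤ ((S.erase 0).card : ℝ) + 1 := by
    have := pred_card_le_card_erase (s := S) (a := (0:ℤ))
    have : S.card ≤ (S.erase 0).card + 1 := by omega
    exact_mod_cast this
  have e2 : (1:ℝ) ≤ (X:ℝ) ^ h := Real.one_le_rpow (by exact_mod_cast hX) hh0
  calc (S.card : ℝ) ≤ C0 * (X:ℝ) ^ h + 1 := by linarith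
    _ ≤ C0 * (X:ℝ) ^ h + (X:ℝ) ^ h := by linarith
    _ = (C0 + 1) * (X:ℝ) ^ h := by ring

theorem main_real {h : ℝ} (h1 : hh < h) : ∃ C : ℝ, 0 < C ∧ ∀ X : ℝ, 1 ≤ X → ∀ S : Finset ℤ,
    (∀ n ∈ S, T5 n ∈ S ∧ |(n:ℝ)| ≤ X) → (S.card : ℝ) ≤ C * X ^ h := by
  obtain ⟨C, hC, H⟩ := main_nat h1
  obtain ⟨s, hs0, hs⟩ := opt
  have hlog : 0 ≤ Real.log (1 + 5 ^ (-s)) / Real.log 2 := by
    apply div_nonneg
    · apply Real.log_nonneg
      have : (0:ℝ) < 5 ^ (-s) := by positivity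
      linarith
    · exact (Real.log_pos (by norm_num)).le
  refine ⟨C, hC, fun X hX S hS => ?_⟩
  have hf : 1 ≤ ⌊X⌋₊ := (Nat.one_le_floor_iff X).2 hX
  refine (H ⌊X⌋₊ hf S fun n hn => ⟨(hS n hn).1, ?_⟩).trans ?_
  · have := (hS n hn).2
    rw [Int.abs_eq_natAbs]
    have h2 : (n.natAbs : ℝ) ≤ X := by rwa [Nat.cast_natAbs, Int.cast_abs]
    exact_mod_cast Nat.le_floor h2
  · have : ((⌊X⌋₊ : ℕ) : ℝ) ≤ X := Nat.floor_le (by linarith)
    have h0 : 0 ≤ h := by linarith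
    gcongr

/-- the integers whose whole orbit stays in `[-X, X]` -/
def Bdd (X : ℝ) : Set ℤ := {n | ∀ k : ℕ, |((T5^[k] n : ℤ) : ℝ)| ≤ X}

theorem Bdd_finite (X : ℝ) : (Bdd X).Finite := by
  refine (Set.finite_Icc (-⌊X⌋) ⌊X⌋).subset fun n hn => ?_
  have h : |(n:ℝ)| ≤ X := hn 0
  rw [abs_le] at h
  refine ⟨?_, Int.le_floor.2 h.2⟩
  have : -n ≤ ⌊X⌋ := Int.le_floor.2 (by push_cast; linarith)
  linarith

theorem Bdd_card {h : ℝ} (h1 : hh < h) : ∃ C : ℝ, 0 < C ∧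
    (∀ X : ℝ, 1 ≤ X → (Bdd X).Finite ∧ ((Bdd X).ncard : ℝ) ≤ C * X ^ h) ∧
    (∀ X : ℝ, 1 ≤ X → ∀ F : Finset (Finset ℤ), (∀ c ∈ F, IsCycle c ∧ ∀ n ∈ c, |(n:ℝ)| ≤ X) →
      ((∑ c ∈ F, c.card : ℕ) : ℝ) ≤ C * X ^ h) ∧
    (∀ c : Finset ℤ, IsCycle c → c ≠ {0} → ∀ m X : ℝ, 0 < m →
      (∀ n ∈ c, m ≤ |(n:ℝ)| ∧ |(n:ℝ)| ≤ X) → gap c ≤ C * X ^ h / m) := by
  classical
  obtain ⟨C, hC, H⟩ := main_real h1
  refine ⟨C, hC, fun X hX => ⟨Bdd_finite X, ?_⟩, ?_, ?_⟩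
  · rw [Set.ncard_eq_toFinset_card _ (Bdd_finite X)]
    refine H X hX _ fun n hn => ?_
    rw [Set.Finite.mem_toFinset] at hn ⊢
    refine ⟨fun k => ?_, hn 0⟩
    have := hn (k + 1)
    rwa [Function.iterate_succ_apply] at this
  · intro X hX F hF
    have hd : Set.PairwiseDisjoint (F : Set (Finset ℤ)) id := by
      intro c hc d hd hcd
      rw [Function.onFun, Finset.disjoint_left]
      intro x hx hx'
      exact hcd (cyc_disj (hF c hc).1 (hF d hd).1 hx hx')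
    have e : ∑ c ∈ F, c.card = (F.biUnion id).card := (card_biUnion hd).symm
    rw [e]
    refine H X hX _ fun n hn => ?_
    rw [mem_biUnion] at hn
    obtain ⟨c, hc, hn⟩ := hn
    refine ⟨mem_biUnion.2 ⟨c, hc, ?_⟩, (hF c hc).2 n hn⟩
    have := cyc_image (hF c hc).1
    simp only [id] at hn ⊢
    rw [← this]
    exact mem_image_of_mem _ hn
  · intro c hc h0 m X hm hcm
    obtain ⟨n0, hn0⟩ := cyc_nonempty hc
    have hz := cyc_zero hc h0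
    have hX : 1 ≤ X := by
      have : n0 ≠ 0 := fun h => hz (h ▸ hn0)
      have h2 : (1:ℝ) ≤ |(n0:ℝ)| := by exact_mod_cast Int.one_le_abs this
      linarith [(hcm n0 hn0).2]
    have hcard : (c.card : ℝ) ≤ C * X ^ h := by
      refine H X hX c fun n hn => ⟨?_, (hcm n hn).2⟩
      have := cyc_image hc
      rw [← this]
      exact mem_image_of_mem _ hn
    have hg : gap c ≤ ∑ n ∈ c.filter (fun n => n % 2 = 1), 1 / 4 * (1 / (n.natAbs : ℝ)) := by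
      unfold gap
      rw [cyc_identity hc h0]
      refine (Finset.abs_sum_le_sum_abs _ _).trans (Finset.sum_le_sum fun n hn => ?_)
      apply log_small
      rintro rfl
      simp at hn
    have hg2 : ∑ n ∈ c.filter (fun n => n % 2 = 1), 1 / 4 * (1 / (n.natAbs : ℝ)) ≤
        ∑ n ∈ c, 1 / m := by
      refine (sum_le_sum_of_subset_of_nonneg (filter_subset _ _) fun n _ _ => by positivity).trans
        (sum_le_sum fun n hn => ?_)
      have e : (n.natAbs : ℝ) = |(n:ℝ)| := by rw [Nat.cast_natAbs, Int.cast_abs]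
      rw [e]
      have h3 := (hcm n hn).1
      have h4 : 1 / |(n:ℝ)| ≤ 1 / m := one_div_le_one_div_of_le hm h3
      have h5 : 0 ≤ 1 / |(n:ℝ)| := by positivity
      linarith
    have hg3 : ∑ n ∈ c, 1 / m = (c.card : ℝ) / m := by
      rw [sum_const, nsmul_eq_mul, mul_one_div]
    calc gap c ≤ (c.card : ℝ) / m := by linarith
      _ ≤ C * X ^ h / m := by gcongr

end Pool.Agent.Helper55.FX
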